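import Pool.Agent.H84.ND.Targets2
import Pool.Agent.H78.SM.BAS

/-!
Row BAP of `ndc_modules` (MP_70ba79_ag): copy of `Pool/Agent/H78/SM/BAS.lean` for irreducible
curves at a smooth point.
-/

set_option autoImplicit false

namespace Pool.Agent.H55.ND

open MvPolynomial SC Pool.Agent.H27.LV Pool.Agent.H84.SM Pool.Agent.H84.ND Pool.Agent.H78.SM.S
open Pool.Agent.H92.OD (HS cf sg uu Lat geO IsO DF DD cf_mul_low cf_add geO_add geO_mul cf_sg
  sg_mul_sg sg_zero_one algebraMap_HS cf_sum hs_ext geO_sg DF_uu exists_IsO)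

/-- BAP: the data of a connection at a smooth point of the curve. -/
theorem pf_BAP (hIFT : Pool.Agent.H84.SM.T_IFT) (hCGE : Pool.Agent.H84.SM.T_CGE)
    (hCPC : Pool.Agent.H84.SM.T_CPC) (hAFE : Pool.Agent.H84.SM.T_AFE) :
    Pool.Agent.H84.ND.T_BAP := by
  intro k _ _ _ G d α A b hI hC hα u0 u1 u2 hΔ hu0 hu2
  have hd := hI.two
  have hpa0 : pa u0 u1 u2 (0 : k) 0 = u0 := by
    funext i
    simp [pa]
  -- the implicit function
  have hg0 : eval ![0, 0] (gU G u0 u1 u2) = 0 := by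
    have := aeval_gU (L := k) G u0 u1 u2 0 0
    rw [hpa0, ae, ae] at this
    rw [this]
    exact hu0
  have hg1 : eval ![0, 0] (pderiv 1 (gU G u0 u1 u2)) ≠ 0 := by
    have h1 : pderiv 1 (gU G u0 u1 u2) = ∑ i, gU (pderiv i G) u0 u1 u2 * C (u2 i) := by
      rw [gU, chain (pderiv 1)]
      refine Finset.sum_congr rfl fun i _ => ?_
      congr 1
      simp [pa, pderiv_X, algebraMap_eq]
    rw [h1, map_sum]
    have h2 : ∀ i, eval ![0, 0] (gU (pderiv i G) u0 u1 u2 * C (u2 i)) =
        gr G u0 i * u2 i := by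
      intro i
      rw [map_mul, eval_C]
      have := aeval_gU (L := k) (pderiv i G) u0 u1 u2 0 0
      rw [hpa0, ae, ae] at this
      rw [this, gr, ae]
    rw [Finset.sum_congr rfl fun i _ => h2 i]
    exact hu2
  obtain ⟨φ, hφ1, hφ2, hφ3, hφ4⟩ := hIFT k _ hg0 hg1
  have hu : DD k (uu k) = uu k := DF_uu
  have hcu : cf (uu k) 0 = 0 := by
    show cf (sg 1 (1 : k)) 0 = 0
    rw [cf_sg, if_neg (by norm_num)]
  have hcφ : cf φ 0 = 0 := hφ2 0 (by norm_num)
  have hguu : geO 0 (uu k) := Pool.Agent.H92.OD.geO_mono (geO_sg 1 1) (by norm_num)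
  have hgφ : geO 0 φ := Pool.Agent.H92.OD.geO_mono hφ2 (by norm_num)
  have hlu : Lat 1 (uu k) := by
    have := lat_sg (k := k) 1 1
    rwa [Int.cast_one] at this
  set c : Fin 3 → HS k := pa u0 u1 u2 (uu k) φ with hc
  have hval : ∀ P : MvPolynomial (Fin 3) k, cf (aeval c P) 0 = eval u0 P := by
    intro P
    have h1 := (low_aeval (y := ![uu k, φ]) (by
      intro i
      fin_cases i
      · exact hguu
      · exact hgφ) (gU P u0 u1 u2)).2
    rw [aeval_gU] at h1
    rw [h1]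
    have h2 : (fun i => cf (![uu k, φ] i) 0) = ![0, 0] := by
      funext i
      fin_cases i
      · exact hcu
      · exact hcφ
    rw [h2]
    have := aeval_gU (L := k) P u0 u1 u2 0 0
    rw [hpa0, ae, ae] at this
    exact this
  have hGc : aeval c G = 0 := by
    rw [aeval_gU] at hφ3
    exact hφ3
  have hgr : ∃ l, gr G c l ≠ 0 := by
    by_contra hcon
    push Not at hcon
    apply hu2
    rw [dp]
    refine Finset.sum_eq_zero fun i _ => ?_
    have h1 := hval (pderiv i G)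
    have h2 := hcon i
    rw [gr] at h2
    rw [h2] at h1
    rw [gr, ae, ← h1]
    simp
  have heq := hCGE k (HS k) (DD k) G d α A b c hI.hom (by omega) hC hGc hgr
  have hafe := hAFE k (HS k) (DD k) α A b u0 u1 u2 c 1 (uu k) φ hC.hA hC.hb hC.inv one_ne_zero
    uu_ne hu (fun i => by rw [one_mul])
  rw [heq, one_pow, one_mul] at hafe
  have hsol := (mul_eq_zero.mp hafe.symm).resolve_left (pow_ne_zero 3 uu_ne)
  have hAc : aeval c A ≠ 0 := by
    intro hAc
    have hGA : ¬ G ∣ A := by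
      intro hGA
      have hA0 := hC.ne
      have h1 := totalDegree_le_of_dvd_of_isDomain hGA hA0
      have hG0 : G ≠ 0 := hI.irr.ne_zero
      rw [hI.hom.totalDegree hG0, hC.hA.totalDegree hA0] at h1
      omega
    obtain ⟨z, a, hza⟩ := hCPC k (HS k) G A d α hI.hom hC.hA hI.irr hGA c hGc hAc
    obtain ⟨e1, e2⟩ := cram u0 u1 u2 (uu k) φ z a hza
    have hΔ' : algebraMap k (HS k) (dt u0 u1 u2) ≠ 0 := by
      rw [Ne, map_eq_zero]
      exact hΔ
    have ha1 : algebraMap k (HS k) (dt a u1 u2) ≠ 0 := by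
      intro h
      rw [h, mul_zero] at e1
      exact hΔ' e1.symm
    have e3 : uu k = algebraMap k (HS k) (dt u0 a u2 / dt a u1 u2) := by
      rw [map_div₀, eq_div_iff ha1]
      apply mul_right_cancel₀ hΔ'
      rw [mul_right_comm, ← e2, ← e1]
      ring
    have e4 : cf (uu k) 0 = dt u0 a u2 / dt a u1 u2 := by
      rw [e3, cf_const]
    rw [hcu] at e4
    rw [← e4, map_zero] at e3
    exact uu_ne e3
  have haU : aeval ![uu k, φ] (aU A u0 u1 u2) = algebraMap k (HS k) (dt u0 u1 u2) * aeval c A := by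
    rw [aU, map_mul, aeval_gU, algHom_C]
  have haU0 : aeval ![uu k, φ] (aU A u0 u1 u2) ≠ 0 := by
    rw [haU]
    refine mul_ne_zero ?_ hAc
    rw [Ne, map_eq_zero]
    exact hΔ
  obtain ⟨r, hr⟩ := exists_IsO haU0
  have hlow := low_aeval (y := ![uu k, φ]) (by
      intro i
      fin_cases i
      · exact hguu
      · exact hgφ) (aU A u0 u1 u2)
  have hlat := lat_aeval (y := ![uu k, φ]) (by
      intro i
      fin_cases i
      · exact hlu
      · exact hφ1) (aU A u0 u1 u2)
  obtain ⟨m, hm⟩ := hlat r hr.1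
  rw [Nat.cast_one, mul_one] at hm
  have hr0 : 0 ≤ r := by
    by_contra hneg
    exact hr.1 (hlow.1 r (not_le.mp hneg))
  have hm0 : 0 ≤ m := by
    rw [hm] at hr0
    exact_mod_cast hr0
  obtain ⟨a, rfl⟩ := Int.eq_ofNat_of_zero_le hm0
  have hra : r = (a : ℚ) := by
    rw [hm]
    norm_cast
  rw [hra] at hr
  have hcf0 : cf (aeval ![uu k, φ] (aU A u0 u1 u2)) 0 = dt u0 u1 u2 * eval u0 A := by
    have h1 := cf_mul_low (x := algebraMap k (HS k) (dt u0 u1 u2)) (y := aeval c A)
      (r := 0) (s := 0) (geO_sg 0 _) (by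
        have := (low_aeval (y := ![uu k, φ]) (by
          intro i
          fin_cases i
          · exact hguu
          · exact hgφ) (gU A u0 u1 u2)).1
        rw [aeval_gU] at this
        exact this)
    rw [add_zero] at h1
    rw [haU, h1.2, cf_const, hval]
  refine ⟨φ, a, ⟨hφ1, hφ2, ?_, hr⟩, ?_, ?_, hφ4⟩
  · show aeval ![uu k, φ] (aU A u0 u1 u2) * (sg (-2) 1 * (DF (DF φ) - DF φ)) +
      aeval ![uu k, φ, sg (-1) 1 * DF φ] (bU b u0 u1 u2) = 0
    rw [uu_inv, uu_inv2, ← hsol]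
    have e1 : (uu k ^ 2)⁻¹ * (DF (DF φ) - DF φ) = (DD k (DD k φ) - DD k φ) / uu k ^ 2 := by
      rw [div_eq_mul_inv, mul_comm]
      rfl
    have e2 : (uu k)⁻¹ * DF φ = DD k φ / uu k := by
      rw [div_eq_mul_inv, mul_comm]
      rfl
    rw [e1, e2]
  · intro hA0
    by_contra hne
    have h1 := hr.2 0 (by
      have : 0 < a := Nat.pos_of_ne_zero hne
      exact_mod_cast this)
    rw [hcf0] at h1
    exact mul_ne_zero hΔ hA0 h1
  · intro hA0
    by_contra hlt
    have ha0 : a = 0 := by omega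
    subst ha0
    apply hr.1
    rw [Nat.cast_zero, hcf0, hA0, mul_zero]

end Pool.Agent.H55.ND
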