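import Pool.Agent.H92.ND.TargetsB
import Pool.Agent.H60.SM.BDM

/-!
Row BDN of `ndc_modules` (MP_70ba79_ag): dimension of the space of naive sections.
-/

set_option autoImplicit false

namespace Pool.Agent.H55.ND

open MvPolynomial SC Pool.Agent.H27.LV Pool.Agent.H84.SM Pool.Agent.H84.ND Pool.Agent.H92.ND
open Pool.Agent.H60.SM

/-- BDN: dimension of the space of naive sections. -/
theorem pf_BDN (hFPR : Pool.Agent.H92.ND.T_FPR) (hBMN : Pool.Agent.H92.ND.T_BMN) :
    Pool.Agent.H92.ND.T_BDN := by
  intro k _ _ G d hd hG hsq e i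
  rcases lt_or_ge e 0 with he | he
  · have h0 : BS G d e i = ⊥ := by
      unfold BS
      rw [Submodule.span_eq_bot]
      rintro f ⟨e', b, he', -, -⟩
      have : (0 : ℤ) ≤ (e' : ℤ) := Int.natCast_nonneg _
      omega
    rw [h0]
    refine ⟨inferInstance, ?_⟩
    rw [finrank_bot, bdim, if_pos he]
  · obtain ⟨e, rfl⟩ := Int.eq_ofNat_of_zero_le he
    have hf : fA G ≠ 0 := (hFPR k G d hd hG hsq).1.ne_zero
    rw [BS_eq]
    refine ⟨inferInstance, ?_⟩
    have h1 := rank_null (bm G d).toLinearMap (restrictSupport k (bset e i))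
    rw [ker_eq hf (bh_fA hG) (hBMN k G d hd hG hsq), finrank_V] at h1
    rw [bdim, if_neg (by omega), Int.toNat_natCast]
    split_ifs at h1 with hc
    · have e1 : e - (d - 1) + 2 = e + 3 - d := by omega
      have e2 : i - 1 + 2 = i + 1 := by omega
      rw [e1, e2] at h1
      omega
    · have h0 : (e + 3 - d).choose 2 * (i + 1).choose 2 = 0 := by
        rcases not_and_or.1 hc with h | h
        · rw [Nat.choose_eq_zero_of_lt (by omega), zero_mul]
        · have : i = 0 := by omega
          subst this
          rw [Nat.choose_eq_zero_of_lt (n := 0 + 1) (by omega), mul_zero]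
      rw [h0]
      omega

end Pool.Agent.H55.ND
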