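import Pool.Agent.H84.ND.Targets4
import Pool.Agent.H79.SL.FB

/-!
Row FBN of `ndc_modules` (MP_70ba79_ag): degree of the map, copy of `Pool/Agent/H79/SL/FB.lean`.
-/

set_option autoImplicit false

namespace Pool.Agent.H55.ND

open MvPolynomial SC Pool.Agent.H27.LV Pool.Agent.H84.SM Pool.Agent.H84.SL Pool.Agent.H84.ND
open Pool.Agent.H79.SL (pole_mul)

/-- FBN: degree of the map. -/
theorem pf_FBN (hX1N : Pool.Agent.H84.ND.T_X1N) (hDGC : Pool.Agent.H84.SL.T_DGC)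
    (hLRH : Pool.Agent.H84.SL.T_LRH) (hPRM : Pool.Agent.H84.SM.T_PRM) :
    Pool.Agent.H84.ND.T_FBN := by
  classical
  intro k _ _ _ G d hd hG hnd hCnl
  obtain ⟨B1, hB1⟩ := hCnl
  obtain ⟨N, Ψ, hΨ, hΨh, hX⟩ := hX1N k G d hd hG hnd B1
  refine ⟨B1, N, Ψ, hΨ, hΨh, ?_⟩
  intro K _ _ _ htr D hD x S hx hne hnc
  rcases hPRM k G d hG K htr D hD x S hx with hc | hc
  · exfalso
    obtain ⟨i, hi⟩ := hnc
    exact hi (hc i)
  obtain ⟨K0, iF, iA, iE, ι, x0, D0, μ, S1, htr0, hD0, hιx, hprim, hμ, hDι, hcrv1, hcard⟩ := hc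
  have hxι : x = fun i => ι (x0 i) := funext fun i => (hιx i).symm
  have hev : ∀ P : MvPolynomial (Fin 3) k, aeval x P = ι (aeval x0 P) := by
    intro P
    rw [hxι]
    exact (comp_aeval_apply x0 ι P).symm
  have hone : ∃ j, x0 j = 1 := hcrv1.one
  -- the smaller set of places
  obtain ⟨S0, hS0⟩ : ∃ S0 : Finset (DV k K0), S0 = S1.filter
      (fun w => w.ord (aeval x0 G) ≠ -(d * poleOrder w x0)) := ⟨_, rfl⟩
  have hcrv0 : Crv G d x0 S0 := by
    refine ⟨hone, hcrv1.ne, ?_⟩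
    intro w hw
    by_cases h1 : w ∈ S1
    · by_contra h2
      apply hw
      rw [hS0]
      exact Finset.mem_filter.2 ⟨h1, h2⟩
    · exact hcrv1.off w h1
  obtain ⟨M, hM, hdeg, hRH⟩ := hLRH k K0 K ι htr0 htr D0 D hD0 hD
  have hRH0 := hRH S0 S (by
    intro w hw v e he hve
    by_contra hv
    have h1 := hx.off v hv
    rw [hev, hve, hxι, pole_mul ι x0 v w e hve] at h1
    rw [hS0] at hw
    apply (Finset.mem_filter.1 hw).2
    have h2 : (e : ℤ) ≠ 0 := by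
      have : e ≠ 0 := by omega
      exact_mod_cast this
    apply mul_left_cancel₀ h2
    rw [h1]
    push_cast
    ring)
  obtain ⟨e, Φ, he, hΦ, hΦh, hΦx⟩ := hB1 K0 htr0 D0 hD0 x0 S0 hcrv0
  have hde : deg k x0 ≤ e := hDGC k K0 htr0 x0 hprim hone e Φ hΦ hΦh hΦx
  have hchi : 1 ≤ canDeg D0 + S0.card := by
    by_contra hcon
    have hle : canDeg D0 + S0.card ≤ 0 := by omega
    rw [max_eq_left (by omega : canDeg D0 + S0.card ≤ 1), mul_one] at he
    have h1 : e ≤ B1 := by exact_mod_cast he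
    apply hne
    rw [hev, hX K0 htr0 D0 hD0 x0 S0 hprim hcrv0 (hde.trans h1) hle, map_zero]
  rw [max_eq_right hchi] at he
  have hM' : (1 : ℤ) ≤ M := by exact_mod_cast hM
  have hd2 : (deg k x0 : ℤ) ≤ B1 * (canDeg D0 + S0.card) := le_trans (by exact_mod_cast hde) he
  refine ⟨?_, ?_⟩
  · nlinarith
  · have h3 : deg k x = M * deg k x0 := by
      rw [hxι]
      exact hdeg x0
    rw [h3]
    push_cast
    have hB0 : (0 : ℤ) ≤ B1 := Int.natCast_nonneg B1
    calc (M : ℤ) * (deg k x0 : ℤ) ≤ M * (B1 * (canDeg D0 + S0.card)) :=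
          mul_le_mul_of_nonneg_left hd2 (by omega)
      _ = B1 * (M * (canDeg D0 + S0.card)) := by ring
      _ ≤ B1 * (canDeg D + S.card) := mul_le_mul_of_nonneg_left hRH0 hB0

end Pool.Agent.H55.ND
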